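import Mathlib

set_option autoImplicit false

namespace Pool.Agent.Results.MP_6996b5_co.HookMonotone

open Finset

/-- `part p i` is the part `λ_{i+1}` of the partition `p`, that is, the entry number `i` (counted
from `0`) of the decreasing list of the parts, and `0` beyond the last part. -/
def part {n : ℕ} (p : n.Partition) (i : ℕ) : ℕ := (p.parts.sort (· ≥ ·)).getD i 0

/-- `conj p j` is `λ'_{j+1}`, the number of parts that are larger than `j`. -/
def conj {n : ℕ} (p : n.Partition) (j : ℕ) : ℕ := (p.parts.filter (fun x => j < x)).card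

/-- `h_k(λ)`: the number of cells with hook length `k`. The cell in row `i + 1` and column `j + 1`
(present when `j < λ_{i+1}`) has hook length `(λ_{i+1} - j) + (λ'_{j+1} - i) - 1`. -/
def hooks {n : ℕ} (k : ℕ) (p : n.Partition) : ℕ :=
  #{c ∈ range n ×ˢ range n |
    c.2 < part p c.1 ∧ (part p c.1 - c.2) + (conj p c.2 - c.1) - 1 = k}

/-- The `t`-regular partitions of `n`: no part is divisible by `t`. -/
def regular (t n : ℕ) : Finset n.Partition := {p | ∀ x ∈ p.parts, ¬ t ∣ x}

/-- `b_{t,k}(n)`: the number of hooks of length `k` in all `t`-regular partitions of `n`. -/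
def b (t k n : ℕ) : ℕ := ∑ p ∈ regular t n, hooks k p

/-! ### Multisets with prescribed sum and parts in `S` -/

/-- multisets of positive elements of `S` with sum `m` -/
def RS (S : Set ℕ) (m : ℤ) : Set (Multiset ℕ) :=
  {x | (∀ a ∈ x, 0 < a ∧ a ∈ S) ∧ (x.sum : ℤ) = m}

theorem RS_finite (S : Set ℕ) (m : ℤ) : (RS S m).Finite := by
  apply (Set.finite_range (fun p : Nat.Partition m.toNat => p.parts)).subset
  rintro x ⟨h1, h2⟩
  exact ⟨⟨x, fun {i} hi => (h1 i hi).1, by omega⟩, rfl⟩

/-- their number -/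
noncomputable def cnt (S : Set ℕ) (m : ℤ) : ℤ := (RS S m).ncard

theorem cnt_nonneg (S : Set ℕ) (m : ℤ) : 0 ≤ cnt S m := Nat.cast_nonneg _

theorem cnt_neg (S : Set ℕ) {m : ℤ} (hm : m < 0) : cnt S m = 0 := by
  have : RS S m = ∅ := by
    ext x
    simp only [RS, Set.mem_ofPred_eq, Set.mem_empty_iff_false, iff_false, not_and]
    intro _ h
    omega
  rw [cnt, this]; simp

theorem cons_inj (s : ℕ) : Function.Injective (fun x : Multiset ℕ => s ::ₘ x) :=
  fun _ _ h => (Multiset.cons_inj_right s).mp h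

theorem image_cons (S : Set ℕ) (m : ℤ) (s : ℕ) (hs : s ∈ S) (h0 : 0 < s) :
    (fun x : Multiset ℕ => s ::ₘ x) '' RS S (m - s) = {x | x ∈ RS S m ∧ 1 ≤ x.count s} := by
  ext x
  simp only [Set.mem_image, RS, Set.mem_ofPred_eq]
  constructor
  · rintro ⟨y, ⟨hy1, hy2⟩, rfl⟩
    refine ⟨⟨?_, ?_⟩, by simp⟩
    · intro a ha
      rcases Multiset.mem_cons.mp ha with rfl | h
      · exact ⟨h0, hs⟩
      · exact hy1 a h
    · rw [Multiset.sum_cons, Nat.cast_add]; omega
  · rintro ⟨⟨h1, h2⟩, h3⟩
    have hmem : s ∈ x := Multiset.count_pos.mp (by omega)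
    refine ⟨x.erase s, ⟨fun a ha => h1 a (Multiset.mem_of_mem_erase ha), ?_⟩,
      Multiset.cons_erase hmem⟩
    have := Multiset.sum_cons s (x.erase s)
    rw [Multiset.cons_erase hmem] at this
    omega

theorem ncard_one (S : Set ℕ) (m : ℤ) (s : ℕ) (hs : s ∈ S) (h0 : 0 < s) :
    (({x | x ∈ RS S m ∧ 1 ≤ x.count s} : Set (Multiset ℕ)).ncard : ℤ) = cnt S (m - s) := by
  rw [← image_cons S m s hs h0, Set.ncard_image_of_injective _ (cons_inj s), cnt]

theorem ncard_two (S : Set ℕ) (m : ℤ) (s : ℕ) (hs : s ∈ S) (h0 : 0 < s) :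
    (({x | x ∈ RS S m ∧ 2 ≤ x.count s} : Set (Multiset ℕ)).ncard : ℤ) = cnt S (m - 2 * s) := by
  have : ({x | x ∈ RS S m ∧ 2 ≤ x.count s} : Set (Multiset ℕ)) =
      (fun x : Multiset ℕ => s ::ₘ x) '' ((fun x : Multiset ℕ => s ::ₘ x) '' RS S (m - s - s)) := by
    rw [image_cons S (m - s) s hs h0]
    ext x
    constructor
    · rintro ⟨h1, h2⟩
      have h3 : x ∈ (fun x : Multiset ℕ => s ::ₘ x) '' RS S (m - s) := by
        rw [image_cons S m s hs h0]; exact ⟨h1, by omega⟩
      obtain ⟨y, hy, rfl⟩ := h3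
      refine ⟨y, ⟨hy, ?_⟩, rfl⟩
      simp only [Multiset.count_cons_self] at h2; omega
    · rintro ⟨y, ⟨hy, h2⟩, rfl⟩
      have : (s ::ₘ y) ∈ (fun x : Multiset ℕ => s ::ₘ x) '' RS S (m - s) := ⟨y, hy, rfl⟩
      rw [image_cons S m s hs h0] at this
      refine ⟨this.1, ?_⟩
      simp only [Multiset.count_cons_self]; omega
  rw [this, Set.ncard_image_of_injective _ (cons_inj s),
    Set.ncard_image_of_injective _ (cons_inj s), cnt]
  congr 3
  ring

theorem RS_diff (S : Set ℕ) (m : ℤ) (s : ℕ) :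
    RS (S \ {s}) m = {x | x ∈ RS S m ∧ x.count s = 0} := by
  ext x
  simp only [RS, Set.mem_ofPred_eq, Set.mem_sdiff, Set.mem_singleton_iff, Multiset.count_eq_zero]
  constructor
  · rintro ⟨h1, h2⟩
    exact ⟨⟨fun a ha => ⟨(h1 a ha).1, (h1 a ha).2.1⟩, h2⟩, fun h => (h1 s h).2.2 rfl⟩
  · rintro ⟨⟨h1, h2⟩, h3⟩
    exact ⟨fun a ha => ⟨(h1 a ha).1, (h1 a ha).2, fun h => h3 (h ▸ ha)⟩, h2⟩

theorem cnt_split (S : Set ℕ) (m : ℤ) (s : ℕ) (hs : s ∈ S) (h0 : 0 < s) :
    cnt S m = cnt (S \ {s}) m + cnt S (m - s) := by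
  rw [← ncard_one S m s hs h0, cnt, cnt, RS_diff]
  rw [← Nat.cast_add, ← Set.ncard_union_eq _ ((RS_finite S m).subset fun x hx => hx.1)
    ((RS_finite S m).subset fun x hx => hx.1)]
  · congr 2
    ext x
    simp only [Set.mem_union, Set.mem_ofPred_eq]
    constructor
    · intro h
      rcases Nat.eq_zero_or_pos (x.count s) with h' | h'
      · exact Or.inl ⟨h, h'⟩
      · exact Or.inr ⟨h, h'⟩
    · rintro (h | h) <;> exact h.1
  · rw [Set.disjoint_left]
    rintro x ⟨_, h1⟩ ⟨_, h2⟩
    omega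

/-! ### The injection from `t`-regular to `(t+1)`-regular partitions -/

/-- replace each factor `t + 1` by `t` -/
def psi (t : ℕ) (s : ℕ) : ℕ :=
  if _h : 0 < t ∧ 0 < s ∧ (t + 1) ∣ s then t * psi t (s / (t + 1)) else s
termination_by s
decreasing_by exact Nat.div_lt_self _h.2.1 (by omega)

theorem psi_of_dvd {t s : ℕ} (ht : 0 < t) (hs : 0 < s) (h : (t + 1) ∣ s) :
    psi t s = t * psi t (s / (t + 1)) := by
  rw [psi, dif_pos ⟨ht, hs, h⟩]

theorem psi_of_not_dvd {t s : ℕ} (h : ¬ (t + 1) ∣ s) : psi t s = s := by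
  rw [psi, dif_neg (fun h' => h h'.2.2)]

theorem psi_props (t : ℕ) (ht : 2 ≤ t) : ∀ s, 0 < s → 0 < psi t s ∧ psi t s ≤ s ∧ ¬ (t + 1) ∣ psi t s := by
  intro s
  induction s using Nat.strong_induction_on with
  | _ s ih =>
    intro hs
    by_cases h : (t + 1) ∣ s
    · rw [psi_of_dvd (by omega) hs h]
      obtain ⟨k, rfl⟩ := h
      have hk : 0 < k := Nat.pos_of_mul_pos_left hs
      rw [Nat.mul_div_cancel_left _ (by omega)]
      obtain ⟨h1, h2, h3⟩ := ih k (by nlinarith) hk
      refine ⟨by positivity, ?_, ?_⟩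
      · nlinarith
      · intro hd
        exact h3 ((Nat.Coprime.dvd_of_dvd_mul_left (by simp) hd))
    · rw [psi_of_not_dvd h]
      exact ⟨hs, le_rfl, h⟩

theorem psi_inj (t : ℕ) (ht : 2 ≤ t) : ∀ s, 0 < s → ¬ t ∣ s → ∀ s', 0 < s' → ¬ t ∣ s' →
    psi t s = psi t s' → s = s' := by
  intro s
  induction s using Nat.strong_induction_on with
  | _ s ih =>
    intro hs hts s' hs' hts' he
    by_cases h : (t + 1) ∣ s
    · by_cases h' : (t + 1) ∣ s'
      · rw [psi_of_dvd (by omega) hs h, psi_of_dvd (by omega) hs' h'] at he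
        obtain ⟨k, rfl⟩ := h
        obtain ⟨k', rfl⟩ := h'
        rw [Nat.mul_div_cancel_left _ (by omega), Nat.mul_div_cancel_left _ (by omega)] at he
        have he' := Nat.eq_of_mul_eq_mul_left (by omega) he
        have hk : 0 < k := Nat.pos_of_mul_pos_left hs
        have hk' : 0 < k' := Nat.pos_of_mul_pos_left hs'
        have := ih k (by nlinarith) hk (fun hd => hts (hd.mul_left _)) k' hk'
          (fun hd => hts' (hd.mul_left _)) he'
        rw [this]
      · rw [psi_of_dvd (by omega) hs h, psi_of_not_dvd h'] at he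
        exact absurd ⟨_, he.symm⟩ hts'
    · by_cases h' : (t + 1) ∣ s'
      · rw [psi_of_dvd (by omega) hs' h', psi_of_not_dvd h] at he
        exact absurd ⟨_, he⟩ hts
      · rwa [psi_of_not_dvd h, psi_of_not_dvd h'] at he

theorem psi_eq_one (t : ℕ) (ht : 2 ≤ t) {s : ℕ} (hs : 0 < s) (h : psi t s = 1) : s = 1 := by
  by_cases hd : (t + 1) ∣ s
  · rw [psi_of_dvd (by omega) hs hd] at h
    have := Nat.eq_one_of_mul_eq_one_right h
    omega
  · rwa [psi_of_not_dvd hd] at h

theorem sum_map_psi_le (t : ℕ) (ht : 2 ≤ t) (x : Multiset ℕ) (hx : ∀ a ∈ x, 0 < a) :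
    (x.map (psi t)).sum ≤ x.sum := by
  induction x using Multiset.induction_on with
  | empty => simp
  | cons a x ih =>
    rw [Multiset.map_cons, Multiset.sum_cons, Multiset.sum_cons]
    exact Nat.add_le_add (psi_props t ht a (hx a (Multiset.mem_cons_self a x))).2.1
      (ih fun c hc => hx c (Multiset.mem_cons_of_mem hc))

theorem count_map_psi (t : ℕ) (ht : 2 ≤ t) (x : Multiset ℕ) (hx : ∀ a ∈ x, 0 < a ∧ ¬ t ∣ a) {s : ℕ}
    (hs : 0 < s) (hts : ¬ t ∣ s) : (x.map (psi t)).count (psi t s) = x.count s := by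
  induction x using Multiset.induction_on with
  | empty => simp
  | cons a x ih =>
    rw [Multiset.map_cons, Multiset.count_cons, Multiset.count_cons,
      ih fun c hc => hx c (Multiset.mem_cons_of_mem hc)]
    congr 1
    have ha := hx a (Multiset.mem_cons_self a x)
    by_cases h : s = a
    · subst h; simp
    · rw [if_neg h, if_neg]
      exact fun he => h (psi_inj t ht s hs hts a ha.1 ha.2 he)

/-- the injection -/
def Phi (t : ℕ) (x : Multiset ℕ) : Multiset ℕ :=
  x.map (psi t) + Multiset.replicate (x.sum - (x.map (psi t)).sum) 1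

theorem cnt_le (t : ℕ) (ht : 2 ≤ t) (E : Set ℕ) (h1 : 1 ∉ E)
    (hE : ∀ s, 0 < s → ¬ t ∣ s → s ∉ E → psi t s ∉ E) (m : ℤ) :
    cnt ({x | ¬ t ∣ x} \ E) m ≤ cnt ({x | ¬ (t + 1) ∣ x} \ E) m := by
  unfold cnt
  rw [Nat.cast_le]
  refine Set.ncard_le_ncard_of_injOn (Phi t) ?_ ?_ (RS_finite _ _)
  · rintro x ⟨hx1, hx2⟩
    refine ⟨?_, ?_⟩
    · intro a ha
      rw [Phi, Multiset.mem_add, Multiset.mem_map] at ha
      rcases ha with ⟨s, hs, rfl⟩ | ha
      · obtain ⟨h0, h2, h3⟩ := hx1 s hs
        obtain ⟨p1, p2, p3⟩ := psi_props t ht s h0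
        exact ⟨p1, p3, hE s h0 h2 h3⟩
      · rw [Multiset.eq_of_mem_replicate ha]
        refine ⟨one_pos, ?_, h1⟩
        simp only [Set.mem_ofPred_eq, Nat.dvd_one]
        omega
    · have := sum_map_psi_le t ht x fun a ha => (hx1 a ha).1
      rw [Phi, Multiset.sum_add, Multiset.sum_replicate, smul_eq_mul, mul_one]
      omega
  · rintro x ⟨hx1, hx2⟩ y ⟨hy1, hy2⟩ hxy
    have key : ∀ s, s ≠ 1 → x.count s = y.count s := by
      intro s hs1
      by_cases hs : 0 < s ∧ ¬ t ∣ s
      · have hne : psi t s ≠ 1 := fun h => hs1 (psi_eq_one t ht hs.1 h)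
        have e1 := count_map_psi t ht x (fun a ha => ⟨(hx1 a ha).1, (hx1 a ha).2.1⟩) hs.1 hs.2
        have e2 := count_map_psi t ht y (fun a ha => ⟨(hy1 a ha).1, (hy1 a ha).2.1⟩) hs.1 hs.2
        have e3 : (Phi t x).count (psi t s) = (Phi t y).count (psi t s) := by rw [hxy]
        rw [Phi, Phi, Multiset.count_add, Multiset.count_add, Multiset.count_replicate,
          Multiset.count_replicate, if_neg (Ne.symm hne), if_neg (Ne.symm hne), e1, e2] at e3
        simpa using e3
      · rw [Multiset.count_eq_zero_of_notMem, Multiset.count_eq_zero_of_notMem]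
        · exact fun h => hs ⟨(hy1 s h).1, (hy1 s h).2.1⟩
        · exact fun h => hs ⟨(hx1 s h).1, (hx1 s h).2.1⟩
    -- the number of ones is fixed by the sum
    have hfil : x.filter (· ≠ 1) = y.filter (· ≠ 1) := by
      ext s
      rw [Multiset.count_filter, Multiset.count_filter]
      split_ifs with h
      · exact key s h
      · rfl
    have hx3 : x = x.filter (· ≠ 1) + Multiset.replicate (x.count 1) 1 := by
      ext s
      rw [Multiset.count_add, Multiset.count_filter, Multiset.count_replicate]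
      by_cases h : s = 1
      · subst h; simp
      · rw [if_pos h, if_neg (Ne.symm h), add_zero]
    have hy3 : y = y.filter (· ≠ 1) + Multiset.replicate (y.count 1) 1 := by
      ext s
      rw [Multiset.count_add, Multiset.count_filter, Multiset.count_replicate]
      by_cases h : s = 1
      · subst h; simp
      · rw [if_pos h, if_neg (Ne.symm h), add_zero]
    have sx : x.sum = (x.filter (· ≠ 1)).sum + x.count 1 := by
      conv_lhs => rw [hx3]
      rw [Multiset.sum_add, Multiset.sum_replicate, smul_eq_mul, mul_one]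
    have sy : y.sum = (y.filter (· ≠ 1)).sum + y.count 1 := by
      conv_lhs => rw [hy3]
      rw [Multiset.sum_add, Multiset.sum_replicate, smul_eq_mul, mul_one]
    have : x.count 1 = y.count 1 := by
      rw [hfil] at sx
      omega
    rw [hx3, hy3, hfil, this]

/-! ### Hook lengths -/

theorem getD_lt_iff (w : List ℕ) (hw : w.Pairwise (· ≥ ·)) (i j : ℕ) :
    j < w.getD i 0 ↔ i < w.countP (fun x => decide (j < x)) := by
  induction w generalizing i with
  | nil => simp
  | cons a l ih =>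
    rw [List.pairwise_cons] at hw
    rw [List.countP_cons]
    cases i with
    | zero =>
      simp only [List.getD_cons_zero]
      constructor
      · intro h
        simp [h]
      · intro h
        by_contra hc
        have h0 : l.countP (fun x => decide (j < x)) = 0 := by
          rw [List.countP_eq_zero]
          intro x hx
          have := hw.1 x hx
          simp only [decide_eq_true_eq]; omega
        rw [h0] at h
        simp [hc] at h
    | succ i =>
      simp only [List.getD_cons_succ]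
      rw [ih hw.2 i]
      by_cases hc : j < a
      · simp [hc]
      · have h0 : l.countP (fun x => decide (j < x)) = 0 := by
          rw [List.countP_eq_zero]
          intro x hx
          have := hw.1 x hx
          simp only [decide_eq_true_eq]; omega
        rw [h0]
        simp [hc]

theorem lt_part_iff {n : ℕ} (p : n.Partition) (i j : ℕ) : j < part p i ↔ i < conj p j := by
  rw [part, getD_lt_iff _ (Multiset.pairwise_sort _ _), conj]
  have : (p.parts.filter (fun x => j < x)).card =
      (p.parts.sort (· ≥ ·)).countP (fun x => decide (j < x)) := by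
    conv_lhs => rw [← Multiset.sort_eq p.parts (· ≥ ·)]
    rw [Multiset.filter_coe, Multiset.coe_card, List.countP_eq_length_filter]
  rw [this]

theorem conj_succ {n : ℕ} (p : n.Partition) (j : ℕ) :
    conj p j = conj p (j + 1) + p.parts.count (j + 1) := by
  unfold conj
  rw [← Multiset.countP_eq_card_filter, ← Multiset.countP_eq_card_filter]
  induction p.parts using Multiset.induction_on with
  | empty => simp
  | cons a x ih =>
    rw [Multiset.countP_cons, Multiset.countP_cons, Multiset.count_cons, ih]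
    split_ifs <;> omega

theorem conj_le {n : ℕ} (p : n.Partition) (j : ℕ) : conj p j ≤ n := by
  have h1 : conj p j ≤ p.parts.card := Multiset.card_le_card (Multiset.filter_le _ _)
  have h2 : p.parts.card ≤ p.parts.sum := by
    have : ∀ x : Multiset ℕ, (∀ a ∈ x, 0 < a) → x.card ≤ x.sum := by
      intro x
      induction x using Multiset.induction_on with
      | empty => simp
      | cons a x ih =>
        intro h
        rw [Multiset.card_cons, Multiset.sum_cons]
        have := ih fun c hc => h c (Multiset.mem_cons_of_mem hc)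
        have := h a (Multiset.mem_cons_self a x)
        omega
    exact this _ fun a ha => p.parts_pos ha
  rw [p.parts_sum] at h2
  omega

theorem count_eq_zero_of_gt {n : ℕ} (p : n.Partition) {s : ℕ} (hs : n < s) : p.parts.count s = 0 := by
  rw [Multiset.count_eq_zero]
  intro h
  have := Multiset.single_le_sum (fun x _ => Nat.zero_le x) s h
  rw [p.parts_sum] at this
  omega

/-- Hooks of length `2` through multiplicities. -/
theorem hooks_two {n : ℕ} (p : n.Partition) : hooks 2 p =
    ∑ j ∈ range n, ((if 2 ≤ p.parts.count (j + 1) then 1 else 0) +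
      (if p.parts.count (j + 1) = 0 ∧ 1 ≤ p.parts.count (j + 2) then 1 else 0)) := by
  have hset : ({c ∈ range n ×ˢ range n |
      c.2 < part p c.1 ∧ (part p c.1 - c.2) + (conj p c.2 - c.1) - 1 = 2} : Finset (ℕ × ℕ)) =
      ({j ∈ range n | 2 ≤ p.parts.count (j + 1)}.image fun j => (conj p j - 2, j)) ∪
      ({j ∈ range n | p.parts.count (j + 1) = 0 ∧ 1 ≤ p.parts.count (j + 2)}.image
        fun j => (conj p j - 1, j)) := by
    ext ⟨i, j⟩
    simp only [Finset.mem_filter, Finset.mem_product, Finset.mem_range, Finset.mem_union,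
      Finset.mem_image, Prod.mk.injEq]
    have e1 := lt_part_iff p i j
    have e2 := lt_part_iff p i (j + 1)
    have e3 := lt_part_iff p i (j + 2)
    have c1 := conj_succ p j
    have c2 : conj p (j + 1) = conj p (j + 2) + p.parts.count (j + 2) := conj_succ p (j + 1)
    have c3 := conj_le p j
    constructor
    · rintro ⟨⟨hi, hj⟩, h1, h2⟩
      have h3 := e1.mp h1
      rcases Nat.lt_or_ge (j + 1) (part p i) with h4 | h4
      · -- arm at least one
        have h5 := e2.mp h4
        have h6 : ¬ (j + 2 < part p i) := by omega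
        rw [e3] at h6
        right
        exact ⟨j, ⟨hj, by omega, by omega⟩, by omega, rfl⟩
      · have h6 : ¬ (j + 1 < part p i) := by omega
        rw [e2] at h6
        left
        exact ⟨j, ⟨hj, by omega⟩, by omega, rfl⟩
    · rintro (⟨j', ⟨hj, h1⟩, h2, rfl⟩ | ⟨j', ⟨hj, h1, h1'⟩, h2, rfl⟩)
      · have h3 : i < conj p j' := by omega
        have h4 := e1.mpr h3
        have h5 : ¬ i < conj p (j' + 1) := by omega
        rw [← e2] at h5
        exact ⟨⟨by omega, hj⟩, h4, by omega⟩
      · have h3 : i < conj p j' := by omega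
        have h4 := e1.mpr h3
        have h5 : ¬ i < conj p (j' + 2) := by omega
        rw [← e3] at h5
        have h6 : i < conj p (j' + 1) := by omega
        rw [← e2] at h6
        exact ⟨⟨by omega, hj⟩, h4, by omega⟩
  rw [hooks, hset, Finset.card_union_of_disjoint, Finset.card_image_of_injective,
    Finset.card_image_of_injective, Finset.sum_add_distrib, Finset.card_filter, Finset.card_filter]
  · intro a c h; exact (Prod.mk.inj h).2
  · intro a c h; exact (Prod.mk.inj h).2
  · rw [Finset.disjoint_left]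
    rintro ⟨i, j⟩ h1 h2
    simp only [Finset.mem_filter, Finset.mem_image, Prod.mk.injEq] at h1 h2
    obtain ⟨_, ⟨_, h1⟩, _, rfl⟩ := h1
    obtain ⟨_, ⟨_, h2, _⟩, _, rfl⟩ := h2
    omega

/-! ### The formula for `b t 2 n` -/

/-- numbers not divisible by `t` -/
def ND (t : ℕ) : Set ℕ := {x | ¬ t ∣ x}

theorem mem_ND {t x : ℕ} : x ∈ ND t ↔ ¬ t ∣ x := Iff.rfl

theorem card_regular (t n : ℕ) (Q : Multiset ℕ → Prop) [DecidablePred Q] :
    #{p ∈ regular t n | Q p.parts} = ({x | x ∈ RS (ND t) n ∧ Q x} : Set (Multiset ℕ)).ncard := by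
  have : ({x | x ∈ RS (ND t) n ∧ Q x} : Set (Multiset ℕ)) =
      (fun p : n.Partition => p.parts) '' (({p ∈ regular t n | Q p.parts} : Finset n.Partition) :
        Set n.Partition) := by
    ext x
    simp only [RS, Set.mem_ofPred_eq, Set.mem_image, Finset.coe_filter, regular,
      Finset.mem_filter, Finset.mem_univ, true_and, mem_ND]
    constructor
    · rintro ⟨⟨h1, h2⟩, h3⟩
      exact ⟨⟨x, fun {i} hi => (h1 i hi).1, by exact_mod_cast h2⟩, ⟨fun i hi => (h1 i hi).2, h3⟩, rfl⟩
    · rintro ⟨p, ⟨h1, h2⟩, rfl⟩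
      exact ⟨⟨fun a ha => ⟨p.parts_pos ha, h1 a ha⟩, by rw [p.parts_sum]⟩, h2⟩
  rw [this, Set.ncard_image_of_injective _ (fun p q h => Nat.Partition.ext h),
    Set.ncard_coe_finset]

theorem b_formula (t n : ℕ) : (b t 2 n : ℤ) = ∑ j ∈ range n,
    ((if t ∣ j + 1 then 0 else cnt (ND t) (n - 2 * (j + 1 : ℕ))) +
      (if t ∣ j + 2 then 0 else cnt (ND t) (n - (j + 2 : ℕ)) -
        (if t ∣ j + 1 then 0 else cnt (ND t) (n - (j + 2 : ℕ) - (j + 1 : ℕ))))) := by
  have h1 : b t 2 n = ∑ j ∈ range n, (#{p ∈ regular t n | 2 ≤ p.parts.count (j + 1)} +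
      #{p ∈ regular t n | p.parts.count (j + 1) = 0 ∧ 1 ≤ p.parts.count (j + 2)}) := by
    unfold b
    rw [Finset.sum_congr rfl fun p _ => hooks_two p, Finset.sum_comm]
    refine Finset.sum_congr rfl fun j _ => ?_
    rw [Finset.sum_add_distrib, Finset.card_filter, Finset.card_filter]
  rw [h1]
  push_cast
  refine Finset.sum_congr rfl fun j _ => ?_
  congr 1
  · rw [card_regular t n (fun x => 2 ≤ x.count (j + 1))]
    split_ifs with hd
    · have : ({x | x ∈ RS (ND t) n ∧ 2 ≤ x.count (j + 1)} : Set (Multiset ℕ)) = ∅ := by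
        ext x
        simp only [RS, Set.mem_ofPred_eq, Set.mem_empty_iff_false, iff_false]
        rintro ⟨⟨h1, _⟩, h3⟩
        exact (h1 (j + 1) (Multiset.count_pos.mp (by omega))).2 hd
      rw [this]; simp
    · rw [ncard_two (ND t) n (j + 1) hd (by omega)]
      push_cast
      rfl
  · rw [card_regular t n (fun x => x.count (j + 1) = 0 ∧ 1 ≤ x.count (j + 2))]
    have e : ({x | x ∈ RS (ND t) n ∧ (x.count (j + 1) = 0 ∧ 1 ≤ x.count (j + 2))} :
        Set (Multiset ℕ)) = {x | x ∈ RS (ND t \ {j + 1}) n ∧ 1 ≤ x.count (j + 2)} := by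
      rw [RS_diff]
      ext x
      simp only [Set.mem_ofPred_eq, and_assoc]
    rw [e]
    split_ifs with hd hd'
    · have : ({x | x ∈ RS (ND t \ {j + 1}) n ∧ 1 ≤ x.count (j + 2)} : Set (Multiset ℕ)) = ∅ := by
        ext x
        simp only [RS, Set.mem_ofPred_eq, Set.mem_empty_iff_false, iff_false]
        rintro ⟨⟨h1, _⟩, h3⟩
        exact (h1 (j + 2) (Multiset.count_pos.mp (by omega))).2.1 hd
      rw [this]; simp
    · rw [ncard_one (ND t \ {j + 1}) n (j + 2) ⟨hd, by simp⟩ (by omega)]
      have : ND t \ {j + 1} = ND t := by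
        ext x
        simp only [Set.mem_sdiff, Set.mem_singleton_iff, mem_ND]
        constructor
        · exact fun h => h.1
        · exact fun h => ⟨h, fun h' => h (h' ▸ hd')⟩
      rw [this]
      push_cast
      ring_nf
    · rw [ncard_one (ND t \ {j + 1}) n (j + 2) ⟨hd, by simp⟩ (by omega)]
      have hh := cnt_split (ND t) ((n : ℤ) - (j + 2 : ℕ)) (j + 1) hd' (by omega)
      push_cast at hh ⊢
      linarith

theorem sum_parity (G : ℕ → ℤ) (N : ℕ) (h : ∀ e, N ≤ e → G e = 0) :
    ∑ e ∈ range N, G e = ∑ s ∈ range N, G (2 * s) + ∑ s ∈ range N, G (2 * s + 1) := by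
  have h1 : ∀ M, ∑ e ∈ range (2 * M), G e = ∑ s ∈ range M, G (2 * s) + ∑ s ∈ range M, G (2 * s + 1) := by
    intro M
    induction M with
    | zero => simp
    | succ M ih =>
      rw [show 2 * (M + 1) = 2 * M + 1 + 1 by ring, Finset.sum_range_succ, Finset.sum_range_succ, ih,
        Finset.sum_range_succ, Finset.sum_range_succ]
      ring
  rw [← h1 N]
  apply Finset.sum_subset
  · intro x; simp only [Finset.mem_range]; omega
  · intro x _ hx
    exact h x (by simpa using hx)

theorem sum_multiples (t n : ℕ) (ht : 0 < t) (R : ℕ → ℤ) (hR : ∀ v, n < v → R v = 0) :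
    ∑ j ∈ range n, (if t ∣ j + 1 then R (j + 1) else 0) = ∑ k ∈ range n, R ((k + 1) * t) := by
  have h1 : ∑ k ∈ range n, R ((k + 1) * t) =
      ∑ k ∈ (range n).filter (fun k => (k + 1) * t ≤ n), R ((k + 1) * t) := by
    rw [Finset.sum_filter]
    refine Finset.sum_congr rfl fun k _ => ?_
    split_ifs with h
    · rfl
    · exact hR _ (by omega)
  rw [h1, ← Finset.sum_filter]
  symm
  refine Finset.sum_nbij (fun k => (k + 1) * t - 1) ?_ ?_ ?_ ?_
  · intro k hk
    simp only [Finset.mem_filter, Finset.mem_range] at hk ⊢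
    have : 1 ≤ (k + 1) * t := Nat.mul_pos (by omega) ht
    rw [Nat.sub_add_cancel this]
    exact ⟨by omega, Dvd.intro_left _ rfl⟩
  · intro k _ k' _ h
    simp only at h
    have h1 : 1 ≤ (k + 1) * t := Nat.mul_pos (by omega) ht
    have h2 : 1 ≤ (k' + 1) * t := Nat.mul_pos (by omega) ht
    have h3 : (k + 1) * t = (k' + 1) * t := by omega
    have := Nat.eq_of_mul_eq_mul_right ht h3
    omega
  · intro j hj
    simp only [Finset.coe_filter, Finset.mem_range, Set.mem_ofPred_eq] at hj
    obtain ⟨h1, k, hk⟩ := hj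
    have hk0 : 0 < k := by
      rcases Nat.eq_zero_or_pos k with h | h
      · subst h; omega
      · exact h
    refine ⟨k - 1, ?_, ?_⟩
    · simp only [Finset.coe_filter, Finset.mem_range, Set.mem_ofPred_eq]
      rw [Nat.sub_add_cancel hk0, mul_comm, ← hk]
      refine ⟨?_, by omega⟩
      have : k ≤ t * k := Nat.le_mul_of_pos_left k ht
      omega
    · simp only
      rw [Nat.sub_add_cancel hk0, mul_comm, ← hk]
      omega
  · intro k _
    have h1 : 1 ≤ (k + 1) * t := Nat.mul_pos (by omega) ht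
    rw [Nat.sub_add_cancel h1]

/-- The closed form of `b t 2 n` in terms of the numbers of `t`-regular partitions. -/
theorem b_closed (t n : ℕ) (ht : 2 ≤ t) : (b t 2 n : ℤ) =
    2 * ∑ j ∈ range n, cnt (ND t) (n - 2 * (j + 1)) -
      ∑ k ∈ range n, (cnt (ND t) (n - (2 * k + 1) * t) - cnt (ND t) (n - 2 * (k + 1) * t + 1) +
        2 * cnt (ND t) (n - 2 * (k + 1) * t) - cnt (ND t) (n - 2 * (k + 1) * t - 1)) := by
  set f : ℤ → ℤ := cnt (ND t) with hf
  have f0 : ∀ m : ℤ, m < 0 → f m = 0 := fun m hm => cnt_neg _ hm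
  set R : ℕ → ℤ := fun v => f (n - v) - f (n - 2 * v + 1) + f (n - 2 * v) - f (n - 2 * v - 1) with hR
  -- rewrite the summand
  have h1 : (b t 2 n : ℤ) = ∑ j ∈ range n, (f (n - 2 * (j + 1)) + f (n - (j + 2)) -
      f (n - 2 * (j + 1) - 1)) - ∑ j ∈ range n, (if t ∣ j + 1 then R (j + 1) else 0) := by
    have hQ : ∑ j ∈ range n, (if t ∣ j + 2 then f (n - ((j + 2 : ℕ) : ℤ)) -
        f (n - 2 * ((j + 2 : ℕ) : ℤ) + 1) else 0) = ∑ j ∈ range n, (if t ∣ j + 1 then
          f (n - ((j + 1 : ℕ) : ℤ)) - f (n - 2 * ((j + 1 : ℕ) : ℤ) + 1) else 0) := by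
      have e1 := Finset.sum_range_succ (fun j => if t ∣ j + 1 then f (n - ((j + 1 : ℕ) : ℤ)) -
        f (n - 2 * ((j + 1 : ℕ) : ℤ) + 1) else 0) n
      have e2 := Finset.sum_range_succ' (fun j => if t ∣ j + 1 then f (n - ((j + 1 : ℕ) : ℤ)) -
        f (n - 2 * ((j + 1 : ℕ) : ℤ) + 1) else 0) n
      rw [e1] at e2
      have z1 : (if t ∣ n + 1 then f (n - ((n + 1 : ℕ) : ℤ)) -
        f (n - 2 * ((n + 1 : ℕ) : ℤ) + 1) else 0) = 0 := by
        split_ifs
        · rw [f0 _ (by push_cast; omega), f0 _ (by push_cast; omega), sub_zero]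
        · rfl
      have z2 : ¬ t ∣ 0 + 1 := by
        rw [zero_add, Nat.dvd_one]; omega
      rw [z1, if_neg z2, add_zero, add_zero] at e2
      exact e2.symm
    have hsplit : ∑ j ∈ range n, (if t ∣ j + 1 then R (j + 1) else 0) =
        ∑ j ∈ range n, (if t ∣ j + 1 then f (n - 2 * ((j + 1 : ℕ) : ℤ)) -
          f (n - 2 * ((j + 1 : ℕ) : ℤ) - 1) else 0) +
        ∑ j ∈ range n, (if t ∣ j + 1 then f (n - ((j + 1 : ℕ) : ℤ)) -
          f (n - 2 * ((j + 1 : ℕ) : ℤ) + 1) else 0) := by
      rw [← Finset.sum_add_distrib]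
      refine Finset.sum_congr rfl fun j _ => ?_
      split_ifs
      · simp only [hR]; push_cast; ring
      · ring
    rw [b_formula, hsplit, ← hQ, ← Finset.sum_add_distrib, ← Finset.sum_sub_distrib]
    refine Finset.sum_congr rfl fun j _ => ?_
    have hnot : t ∣ j + 1 → ¬ t ∣ j + 2 := by
      intro h h'
      have := (Nat.dvd_sub h' h)
      rw [show j + 2 - (j + 1) = 1 by omega, Nat.dvd_one] at this
      omega
    have a1 : (n : ℤ) - (j + 2 : ℕ) - (j + 1 : ℕ) = n - 2 * (j + 1) - 1 := by push_cast; ring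
    have a2 : (n : ℤ) - 2 * (j + 1 : ℕ) = n - 2 * (j + 1) := by push_cast; ring
    have a3 : (n : ℤ) - (j + 2 : ℕ) = n - (j + 2) := by push_cast; ring
    have a4 : (n : ℤ) - 2 * (j + 2 : ℕ) + 1 = n - 2 * (j + 1) - 1 := by push_cast; ring
    rw [a1, a2, a3, a4]
    by_cases c1 : t ∣ j + 1
    · simp only [if_pos c1, if_neg (hnot c1)]
      ring
    · by_cases c2 : t ∣ j + 2
      · simp only [if_neg c1, if_pos c2]; ring
      · simp only [if_neg c1, if_neg c2]; ring
  have h2 : ∑ j ∈ range n, f (n - (j + 2)) = ∑ j ∈ range n, f (n - 2 * (j + 1)) +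
      ∑ j ∈ range n, f (n - 2 * (j + 1) - 1) := by
    have := sum_parity (fun e => f (n - (e + 2))) n (fun e he => f0 _ (by omega))
    rw [this]
    congr 1
    all_goals exact Finset.sum_congr rfl fun j _ => congrArg f (by push_cast; ring)
  have h3 : ∑ j ∈ range n, (if t ∣ j + 1 then R (j + 1) else 0) = ∑ k ∈ range n, R ((k + 1) * t) := by
    refine sum_multiples t n (by omega) R fun v hv => ?_
    simp only [hR]
    rw [f0 _ (by omega), f0 _ (by omega), f0 _ (by omega), f0 _ (by omega)]
    ring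
  have h4 : ∑ k ∈ range n, f (n - ((k + 1 : ℕ) : ℤ) * t) = ∑ k ∈ range n, f (n - (2 * k + 1) * t) +
      ∑ k ∈ range n, f (n - 2 * (k + 1) * t) := by
    have := sum_parity (fun e => f (n - ((e + 1 : ℕ) : ℤ) * t)) n (fun e he => f0 _ (by
      have : (n : ℤ) < ((e + 1 : ℕ) : ℤ) := by exact_mod_cast (by omega : n < e + 1)
      have ht' : (1 : ℤ) ≤ t := by exact_mod_cast (by omega : 1 ≤ t)
      nlinarith))
    rw [this]
    congr 1
    all_goals exact Finset.sum_congr rfl fun j _ => congrArg f (by push_cast; ring)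
  rw [h1, h3, Finset.sum_sub_distrib, Finset.sum_add_distrib, h2]
  have h5 : ∑ k ∈ range n, R ((k + 1) * t) = ∑ k ∈ range n, f (n - ((k + 1 : ℕ) : ℤ) * t) +
      ∑ k ∈ range n, (f (n - 2 * (k + 1) * t) - f (n - 2 * (k + 1) * t + 1) -
        f (n - 2 * (k + 1) * t - 1)) := by
    rw [← Finset.sum_add_distrib]
    refine Finset.sum_congr rfl fun k _ => ?_
    simp only [hR]
    push_cast
    ring_nf
  have h6 : ∑ k ∈ range n, (f (n - (2 * k + 1) * t) - f (n - 2 * (k + 1) * t + 1) +
        2 * f (n - 2 * (k + 1) * t) - f (n - 2 * (k + 1) * t - 1)) =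
      ∑ k ∈ range n, f (n - (2 * k + 1) * t) + (∑ k ∈ range n, f (n - 2 * (k + 1) * t) +
        ∑ k ∈ range n, (f (n - 2 * (k + 1) * t) - f (n - 2 * (k + 1) * t + 1) -
          f (n - 2 * (k + 1) * t - 1))) := by
    rw [← Finset.sum_add_distrib, ← Finset.sum_add_distrib]
    refine Finset.sum_congr rfl fun k _ => ?_
    ring
  rw [h6, h5, h4]
  ring

/-! ### The inequality -/

theorem f_mono (t : ℕ) (ht : 2 ≤ t) (m : ℤ) (j : ℕ) : cnt (ND t) (m - j) ≤ cnt (ND t) m := by
  induction j with
  | zero => simp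
  | succ j ih =>
    have h1 : (1 : ℕ) ∈ ND t := by rw [mem_ND, Nat.dvd_one]; omega
    have := cnt_split (ND t) (m - j) 1 h1 one_pos
    have h2 := cnt_nonneg (ND t \ {1}) (m - j)
    have h3 : m - j - ((1 : ℕ) : ℤ) = m - ((j + 1 : ℕ) : ℤ) := by push_cast; ring
    rw [h3] at this
    linarith

theorem h_eq (t : ℕ) (ht : 2 ≤ t) (m : ℤ) :
    cnt (ND t \ {1}) m = cnt (ND t) m - cnt (ND t) (m - 1) := by
  have h1 : (1 : ℕ) ∈ ND t := by rw [mem_ND, Nat.dvd_one]; omega
  have := cnt_split (ND t) m 1 h1 one_pos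
  push_cast at this
  linarith

theorem h_two (t : ℕ) (ht : 3 ≤ t) (m : ℤ) (j : ℕ) :
    cnt (ND t \ {1}) (m - 2 * j) ≤ cnt (ND t \ {1}) m := by
  induction j with
  | zero => simp
  | succ j ih =>
    have h1 : (2 : ℕ) ∈ ND t \ {1} := by
      refine ⟨?_, by simp⟩
      rw [mem_ND]
      intro h
      have := Nat.le_of_dvd (by omega) h
      omega
    have := cnt_split (ND t \ {1}) (m - 2 * j) 2 h1 (by omega)
    have h2 := cnt_nonneg ((ND t \ {1}) \ {2}) (m - 2 * j)
    have h3 : m - 2 * j - ((2 : ℕ) : ℤ) = m - 2 * ((j + 1 : ℕ) : ℤ) := by push_cast; ring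
    rw [h3] at this
    linarith

theorem h_pred (t : ℕ) (ht : 3 ≤ t) (m : ℤ) :
    cnt (ND t \ {1}) (m + 1) ≤ cnt (ND t \ {1}) (m + t) := by
  have h1 : (t - 1 : ℕ) ∈ ND t \ {1} := by
    refine ⟨?_, ?_⟩
    · rw [mem_ND]
      intro h
      have := Nat.le_of_dvd (by omega) h
      omega
    · rw [Set.mem_singleton_iff]; omega
  have := cnt_split (ND t \ {1}) (m + t) (t - 1) h1 (by omega)
  have h2 := cnt_nonneg ((ND t \ {1}) \ {t - 1}) (m + t)
  have h3 : m + t - ((t - 1 : ℕ) : ℤ) = m + 1 := by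
    rw [Nat.cast_sub (by omega)]; push_cast; ring
  rw [h3] at this
  linarith

theorem X_nonneg (t : ℕ) (ht : 3 ≤ t) (n : ℤ) (k : ℕ) :
    0 ≤ (cnt (ND t) (n - (2 * k + 1) * t) - cnt (ND t) (n - 2 * (k + 1) * t + 1) +
        2 * cnt (ND t) (n - 2 * (k + 1) * t) - cnt (ND t) (n - 2 * (k + 1) * t - 1)) -
      (cnt (ND t) (n - (2 * k + 1) * (t + 1)) - cnt (ND t) (n - 2 * (k + 1) * (t + 1) + 1) +
        2 * cnt (ND t) (n - 2 * (k + 1) * (t + 1)) - cnt (ND t) (n - 2 * (k + 1) * (t + 1) - 1)) := by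
  set a : ℤ := n - 2 * (k + 1) * t with ha
  set c : ℤ := n - 2 * (k + 1) * (t + 1) with hc
  have e1 : n - (2 * k + 1) * t = a + t := by rw [ha]; ring
  have e2 : n - (2 * k + 1) * (t + 1) = a + t - 1 - (2 * k : ℕ) := by rw [ha]; push_cast; ring
  have e3 : c = a - 2 * ((k + 1 : ℕ) : ℤ) := by rw [ha, hc]; push_cast; ring
  rw [e1, e2]
  have i1 := f_mono t (by omega) (a + t - 1) (2 * k)
  have i2 := h_pred t ht a
  have i3 := h_two t ht a (k + 1)
  rw [← e3] at i3
  have i4 := cnt_nonneg (ND t \ {1}) (c + 1)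
  rw [h_eq t (by omega)] at i2 i3 i4
  rw [h_eq t (by omega)] at i2 i3
  rw [show a + 1 - 1 = a by ring] at i2
  rw [show c + 1 - 1 = c by ring] at i4
  linarith

theorem sum_two_le (n : ℕ) (w : ℕ → ℤ) (hw : ∀ j, 0 ≤ w j) (hw' : ∀ j, n ≤ j → w j = 0)
    (σ τ : ℕ → ℕ) (hσ : Function.Injective σ) (hτ : Function.Injective τ) (hd : ∀ k l, σ k ≠ τ l) :
    ∑ k ∈ range n, w (σ k) + ∑ k ∈ range n, w (τ k) ≤ ∑ j ∈ range n, w j := by
  rw [← Finset.sum_image (f := w) (g := σ) (fun x _ y _ h => hσ h),
    ← Finset.sum_image (f := w) (g := τ) (fun x _ y _ h => hτ h), ← Finset.sum_union]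
  · calc ∑ j ∈ (range n).image σ ∪ (range n).image τ, w j
        = ∑ j ∈ ((range n).image σ ∪ (range n).image τ).filter (· < n), w j := by
          rw [Finset.sum_filter]
          refine Finset.sum_congr rfl fun j _ => ?_
          split_ifs with h
          · rfl
          · exact hw' j (by omega)
      _ ≤ ∑ j ∈ range n, w j := by
          refine Finset.sum_le_sum_of_subset_of_nonneg ?_ fun j _ _ => hw j
          intro j hj
          rw [Finset.mem_filter] at hj
          exact Finset.mem_range.mpr hj.2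
  · rw [Finset.disjoint_left]
    intro j h1 h2
    rw [Finset.mem_image] at h1 h2
    obtain ⟨k, _, rfl⟩ := h1
    obtain ⟨l, _, hl⟩ := h2
    exact hd k l hl.symm

theorem A_nonneg (t : ℕ) (ht : 2 ≤ t) (m : ℤ) : cnt (ND t) m ≤ cnt (ND (t + 1)) m := by
  have := cnt_le t ht ∅ (by simp) (by simp) m
  simpa [ND] using this

theorem A_three (t : ℕ) (ht : 4 ≤ t) (m : ℤ) :
    cnt (ND (t + 1)) m - cnt (ND t) m ≤ cnt (ND (t + 1)) (m + 3) - cnt (ND t) (m + 3) := by
  have h := cnt_le t (by omega) {3} (by simp) (by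
    intro s hs hts h3
    rw [Set.mem_singleton_iff] at h3 ⊢
    by_cases hd : (t + 1) ∣ s
    · rw [psi_of_dvd (by omega) hs hd]
      intro h
      have := Nat.le_of_dvd (by omega) (Dvd.intro _ h)
      omega
    · rwa [psi_of_not_dvd hd]) (m + 3)
  have m1 : (3 : ℕ) ∈ ND t := by
    rw [mem_ND]; intro h; have := Nat.le_of_dvd (by omega) h; omega
  have m2 : (3 : ℕ) ∈ ND (t + 1) := by
    rw [mem_ND]; intro h; have := Nat.le_of_dvd (by omega) h; omega
  have s1 := cnt_split (ND t) (m + 3) 3 m1 (by omega)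
  have s2 := cnt_split (ND (t + 1)) (m + 3) 3 m2 (by omega)
  have e : m + 3 - ((3 : ℕ) : ℤ) = m := by push_cast; ring
  rw [e] at s1 s2
  unfold ND at *
  linarith

/-- **Main result.** For every `t ≥ 3` and every `n ≥ 0`, the number of hooks of length `2` in all
`(t+1)`-regular partitions of `n` is at least the number of hooks of length `2` in all `t`-regular
partitions of `n`. -/
theorem result (t n : ℕ) (ht : 3 ≤ t) : b t 2 n ≤ b (t + 1) 2 n := by
  have key : (b t 2 n : ℤ) ≤ (b (t + 1) 2 n : ℤ) := by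
    rw [b_closed t n (by omega), b_closed (t + 1) n (by omega)]
    set A : ℤ → ℤ := fun m => cnt (ND (t + 1)) m - cnt (ND t) m with hA
    have A0 : ∀ m, 0 ≤ A m := fun m => sub_nonneg.mpr (A_nonneg t (by omega) m)
    have Aneg : ∀ m, m < 0 → A m = 0 := fun m hm => by
      simp only [hA]; rw [cnt_neg _ hm, cnt_neg _ hm, sub_zero]
    -- the first part
    have P1 : ∑ k ∈ range n, (A (n - (2 * k + 1) * (t + 1)) + 2 * A (n - 2 * (k + 1) * (t + 1))) ≤
        2 * ∑ j ∈ range n, A (n - 2 * (j + 1)) := by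
      set w : ℕ → ℤ := fun j => A (n - 2 * (j + 1)) with hw
      have hw0 : ∀ j, 0 ≤ w j := fun j => A0 _
      have hw1 : ∀ j, n ≤ j → w j = 0 := fun j hj => Aneg _ (by omega)
      obtain ⟨σ, hσ, hst, hle⟩ : ∃ σ : ℕ → ℕ, Function.Injective σ ∧
          (∀ k l, σ k ≠ (l + 1) * (t + 1) - 1) ∧
          ∀ k : ℕ, A (n - (2 * k + 1) * (t + 1)) ≤ w (σ k) := by
        rcases Nat.even_or_odd (t + 1) with ⟨c, hc⟩ | ho
        · refine ⟨fun k => (2 * k + 1) * c - 1, ?_, ?_, ?_⟩
          · intro k l h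
            simp only at h
            have h1 : 1 ≤ (2 * k + 1) * c := Nat.mul_pos (by omega) (by omega)
            have h2 : 1 ≤ (2 * l + 1) * c := Nat.mul_pos (by omega) (by omega)
            have h3 : (2 * k + 1) * c = (2 * l + 1) * c := by omega
            have := Nat.eq_of_mul_eq_mul_right (by omega) h3
            omega
          · intro k l h
            simp only at h
            have h1 : 1 ≤ (2 * k + 1) * c := Nat.mul_pos (by omega) (by omega)
            have h2 : 1 ≤ (l + 1) * (t + 1) := Nat.mul_pos (by omega) (by omega)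
            have h3 : (2 * k + 1) * c = (2 * (l + 1)) * c := by
              rw [hc] at h h2
              have : (2 * (l + 1)) * c = (l + 1) * (c + c) := by ring
              omega
            have := Nat.eq_of_mul_eq_mul_right (by omega) h3
            omega
          · intro k
            have h1 : 1 ≤ (2 * k + 1) * c := Nat.mul_pos (by omega) (by omega)
            have h2 : ((((2 * k + 1) * c - 1 : ℕ) : ℤ)) = (2 * k + 1) * c - 1 := by
              rw [Nat.cast_sub h1]; push_cast; ring
            have h3 : ((t : ℤ) + 1) = c + c := by exact_mod_cast hc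
            simp only [hw, h2]
            rw [h3]
            apply le_of_eq
            congr 1
            ring
        · have ht4 : 4 ≤ t := by
            rcases ho with ⟨c, hc⟩
            omega
          have hbig : ∀ k, 5 ≤ (2 * k + 1) * (t + 1) := fun k => by nlinarith
          have hodd : ∀ k, ((2 * k + 1) * (t + 1)) % 2 = 1 := fun k => by
            rw [Nat.mul_mod, show (2 * k + 1) % 2 = 1 by omega, Nat.odd_iff.mp ho]
          refine ⟨fun k => ((2 * k + 1) * (t + 1) - 5) / 2, ?_, ?_, ?_⟩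
          · intro k l h
            simp only at h
            have h1 := hbig k
            have h2 := hbig l
            have h3 := hodd k
            have h4 := hodd l
            have h5 : (2 * k + 1) * (t + 1) = (2 * l + 1) * (t + 1) := by omega
            have := Nat.eq_of_mul_eq_mul_right (by omega) h5
            omega
          · intro k l h
            simp only at h
            have h1 := hbig k
            have h3 := hodd k
            have h2 : 1 ≤ (l + 1) * (t + 1) := Nat.mul_pos (by omega) (by omega)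
            have h4 : (2 * k + 1) * (t + 1) = 2 * ((l + 1) * (t + 1)) + 3 := by omega
            have h5 : (t + 1) ∣ 3 := by
              have d1 : (t + 1) ∣ 2 * ((l + 1) * (t + 1)) + 3 := h4 ▸ Dvd.intro_left _ rfl
              have d2 : (t + 1) ∣ 2 * ((l + 1) * (t + 1)) := Dvd.dvd.mul_left (Dvd.intro_left _ rfl) _
              exact (Nat.dvd_add_right d2).mp d1
            have := Nat.le_of_dvd (by omega) h5
            omega
          · intro k
            have h1 := hbig k
            have h3 := hodd k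
            have h2 : 2 * ((((2 * k + 1) * (t + 1) - 5) / 2 : ℕ) : ℤ) = (2 * k + 1) * (t + 1) - 5 := by
              have : 2 * (((2 * k + 1) * (t + 1) - 5) / 2) + 5 = (2 * k + 1) * (t + 1) := by omega
              have h' : (2 * ((((2 * k + 1) * (t + 1) - 5) / 2 : ℕ) : ℤ) + 5) =
                  (2 * k + 1) * (t + 1) := by exact_mod_cast this
              linarith
            simp only [hw]
            have h6 : (n : ℤ) - 2 * (((((2 * k + 1) * (t + 1) - 5) / 2 : ℕ) : ℤ) + 1) =
                (n - (2 * k + 1) * (t + 1)) + 3 := by linarith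
            rw [h6]
            exact A_three t ht4 _
      have hτ : Function.Injective (fun l : ℕ => (l + 1) * (t + 1) - 1) := by
        intro k l h
        simp only at h
        have h1 : 1 ≤ (k + 1) * (t + 1) := Nat.mul_pos (by omega) (by omega)
        have h2 : 1 ≤ (l + 1) * (t + 1) := Nat.mul_pos (by omega) (by omega)
        have h3 : (k + 1) * (t + 1) = (l + 1) * (t + 1) := by omega
        have := Nat.eq_of_mul_eq_mul_right (by omega) h3
        omega
      have hτw : ∀ k : ℕ, A (n - 2 * (k + 1) * (t + 1)) = w ((k + 1) * (t + 1) - 1) := by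
        intro k
        have h1 : 1 ≤ (k + 1) * (t + 1) := Nat.mul_pos (by omega) (by omega)
        have h2 : ((((k + 1) * (t + 1) - 1 : ℕ) : ℤ)) = (k + 1) * (t + 1) - 1 := by
          rw [Nat.cast_sub h1]; push_cast; ring
        simp only [hw, h2]
        congr 1
        ring
      have main := sum_two_le n w hw0 hw1 σ (fun l => (l + 1) * (t + 1) - 1) hσ hτ hst
      calc ∑ k ∈ range n, (A (n - (2 * k + 1) * (t + 1)) + 2 * A (n - 2 * (k + 1) * (t + 1)))
          ≤ ∑ k ∈ range n, (2 * w (σ k) + 2 * w ((k + 1) * (t + 1) - 1)) := by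
            refine Finset.sum_le_sum fun k _ => ?_
            rw [hτw k]
            have := hle k
            have := hw0 (σ k)
            linarith
        _ = 2 * (∑ k ∈ range n, w (σ k) + ∑ k ∈ range n, w ((k + 1) * (t + 1) - 1)) := by
            rw [Finset.sum_add_distrib, ← Finset.mul_sum, ← Finset.mul_sum]; ring
        _ ≤ 2 * ∑ j ∈ range n, w j := by linarith
    -- the second part
    have P2 : 0 ≤ ∑ k ∈ range n, ((cnt (ND t) (n - (2 * k + 1) * t) -
          cnt (ND t) (n - 2 * (k + 1) * t + 1) +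
          2 * cnt (ND t) (n - 2 * (k + 1) * t) - cnt (ND t) (n - 2 * (k + 1) * t - 1)) -
        (cnt (ND t) (n - (2 * k + 1) * (t + 1)) - cnt (ND t) (n - 2 * (k + 1) * (t + 1) + 1) +
          2 * cnt (ND t) (n - 2 * (k + 1) * (t + 1)) - cnt (ND t) (n - 2 * (k + 1) * (t + 1) - 1))) :=
      Finset.sum_nonneg fun k _ => X_nonneg t ht n k
    have P3 : 0 ≤ ∑ k ∈ range n, (A (n - 2 * (k + 1) * (t + 1) + 1) +
        A (n - 2 * (k + 1) * (t + 1) - 1)) :=
      Finset.sum_nonneg fun k _ => add_nonneg (A0 _) (A0 _)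
    push_cast
    simp only [hA, Finset.sum_sub_distrib, Finset.sum_add_distrib, ← Finset.mul_sum] at P1 P2 P3 ⊢
    simp only [mul_sub] at P1 P2 P3 ⊢
    linarith
  exact_mod_cast key

end Pool.Agent.Results.MP_6996b5_co.HookMonotone
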